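import Pool.Agent.Q293.HF.Stm

set_option autoImplicit false

/-! Project HF (helper293): `S_KIP`. -/

namespace Pool.Agent.Q192.HF.KIP

open Pool.Agent.Q293.HF Pool.Agent.Helper922.HB

/-- scaling -/
noncomputable def sc (c s : ℝ) (w : ℂ) : ℂ := w / ((1 + c * s * ‖w‖ : ℝ) : ℂ)

theorem den_pos {c s : ℝ} (hc : 0 ≤ c) (hs : 0 ≤ s) (w : ℂ) : 0 < 1 + c * s * ‖w‖ := by
  positivity

theorem sc_zero (c : ℝ) (w : ℂ) : sc c 0 w = w := by simp [sc]

theorem sc_ne {c s : ℝ} (hc : 0 ≤ c) (hs : 0 ≤ s) {w : ℂ} (hw : w ≠ 0) : sc c s w ≠ 0 := by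
  unfold sc
  apply div_ne_zero hw
  exact_mod_cast (den_pos hc hs w).ne'

theorem sc_norm {c s : ℝ} (hc : 0 ≤ c) (hs : 0 ≤ s) (w : ℂ) :
    ‖sc c s w‖ = ‖w‖ / (1 + c * s * ‖w‖) := by
  unfold sc
  rw [norm_div, Complex.norm_real, Real.norm_of_nonneg (den_pos hc hs w).le]

theorem sc_norm_le {c s : ℝ} (hc : 0 ≤ c) (hs : 0 ≤ s) (w : ℂ) : ‖sc c s w‖ ≤ ‖w‖ := by
  rw [sc_norm hc hs]
  apply div_le_self (norm_nonneg _)
  have : 0 ≤ c * s * ‖w‖ := by positivity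
  linarith

theorem mem1 {c s : ℝ} (hc : 0 ≤ c) (hs : 0 ≤ s) {t w : ℂ} (h : ‖t * w ^ 6‖ < 1 / 2) :
    ‖t * (sc c s w) ^ 6‖ < 1 / 2 := by
  refine lt_of_le_of_lt ?_ h
  rw [norm_mul, norm_mul, norm_pow, norm_pow]
  exact mul_le_mul_of_nonneg_left (pow_le_pow_left₀ (norm_nonneg _) (sc_norm_le hc hs w) 6)
    (norm_nonneg _)

theorem mem2 {c : ℝ} (hc : 0 < c) {t : ℂ} (ht : ‖t‖ < c ^ 6 / 2) (w : ℂ) :
    ‖t * (sc c 1 w) ^ 6‖ < 1 / 2 := by
  rw [norm_mul, norm_pow]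
  have h1 : ‖sc c 1 w‖ ≤ 1 / c := by
    rw [sc_norm hc.le zero_le_one, div_le_div_iff₀ (den_pos hc.le zero_le_one w) hc]
    have := norm_nonneg w
    nlinarith
  calc ‖t‖ * ‖sc c 1 w‖ ^ 6 ≤ ‖t‖ * (1 / c) ^ 6 :=
        mul_le_mul_of_nonneg_left (pow_le_pow_left₀ (norm_nonneg _) h1 6) (norm_nonneg _)
    _ = ‖t‖ / c ^ 6 := by rw [div_pow, one_pow]; ring
    _ < 1 / 2 := by
        rw [div_lt_div_iff₀ (by positivity) two_pos]
        linarith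

theorem mem3 {c s τ : ℝ} (hc : 0 < c) (hs : 0 ≤ s) (hτ : 0 ≤ τ) (hτ1 : τ ≤ 1)
    (hst : τ = 0 ∨ s = 1) {t t' w : ℂ} (ht : ‖t‖ < c ^ 6 / 2) (h : ‖t' * w ^ 6‖ < 1 / 2) :
    ‖(((1 - τ : ℝ) : ℂ) * t' + (τ : ℂ) * t) * (sc c s w) ^ 6‖ < 1 / 2 := by
  have h1 := mem1 hc.le hs h
  rcases hst with h0 | h0
  · subst h0
    simpa using h1
  · subst h0
    have h2 := mem2 hc ht w
    have e : (((1 - τ : ℝ) : ℂ) * t' + (τ : ℂ) * t) * (sc c 1 w) ^ 6 =
        ((1 - τ : ℝ) : ℂ) * (t' * (sc c 1 w) ^ 6) + (τ : ℂ) * (t * (sc c 1 w) ^ 6) := by ring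
    rw [e]
    refine lt_of_le_of_lt (norm_add_le _ _) ?_
    rw [norm_mul, norm_mul ((τ : ℂ)), Complex.norm_real, Complex.norm_real,
      Real.norm_of_nonneg hτ, Real.norm_of_nonneg (by linarith : (0 : ℝ) ≤ 1 - τ)]
    rcases hτ.lt_or_eq with h3 | h3
    · nlinarith
    · rw [← h3]
      simpa using h1

/-- the space -/
abbrev EE : Type := {e : Cs × Vi // e.2.1.2 ≠ 0}

theorem continuous_sc (c : ℝ) (hc : 0 ≤ c) {X : Type} [TopologicalSpace X] (s : X → ℝ) (w : X → ℂ)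
    (hs : Continuous s) (hw : Continuous w) (hs0 : ∀ x, 0 ≤ s x) :
    Continuous fun x => sc c (s x) (w x) := by
  unfold sc
  apply Continuous.div hw (by fun_prop)
  intro x
  exact_mod_cast (den_pos hc (hs0 x) (w x)).ne'

/-- the general map -/
noncomputable def gen {c : ℝ} (hc : 0 < c) {t : ℂ} (ht : ‖t‖ < c ^ 6 / 2) (s τ : ℝ) (hs : 0 ≤ s)
    (hτ : 0 ≤ τ) (hτ1 : τ ≤ 1) (hst : τ = 0 ∨ s = 1) (e : EE) : EE :=
  ⟨(e.1.1, ⟨(((1 - τ : ℝ) : ℂ) * e.1.2.1.1 + (τ : ℂ) * t, sc c s e.1.2.1.2),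
    mem3 hc hs hτ hτ1 hst ht e.1.2.2⟩), sc_ne hc.le hs e.2⟩

theorem continuous_gen {c : ℝ} (hc : 0 < c) {t : ℂ} (ht : ‖t‖ < c ^ 6 / 2) {X : Type}
    [TopologicalSpace X] (s τ : X → ℝ) (e : X → EE) (hs : ∀ x, 0 ≤ s x)
    (hτ : ∀ x, 0 ≤ τ x) (hτ1 : ∀ x, τ x ≤ 1) (hst : ∀ x, τ x = 0 ∨ s x = 1)
    (cs : Continuous s) (cτ : Continuous τ) (ce : Continuous e) :
    Continuous fun x => gen hc ht (s x) (τ x) (hs x) (hτ x) (hτ1 x) (hst x) (e x) := by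
  apply Continuous.subtype_mk
  apply Continuous.prodMk
  · fun_prop
  · apply Continuous.subtype_mk
    apply Continuous.prodMk
    · fun_prop
    · exact continuous_sc c hc.le s _ cs (by fun_prop) hs

theorem kip : S_KIP := by
  intro t
  obtain ⟨c, hc, ht⟩ : ∃ c : ℝ, 0 < c ∧ ‖t‖ < c ^ 6 / 2 := by
    refine ⟨1 + 2 * ‖t‖, by positivity, ?_⟩
    have h0 := norm_nonneg t
    have h1 : 1 + 2 * ‖t‖ ≤ (1 + 2 * ‖t‖) ^ 6 := le_self_pow₀ (by linarith) (by norm_num)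
    linarith
  set B : Set EE := {e : EE | e.1.2.1.1 = t} with hB
  -- the homotopy inverse
  let G : C(EE, B) := ⟨fun e => ⟨gen hc ht 1 1 zero_le_one zero_le_one le_rfl (Or.inr rfl) e, by
      show ((1 - 1 : ℝ) : ℂ) * e.1.2.1.1 + ((1 : ℝ) : ℂ) * t = t
      simp⟩, by
    apply Continuous.subtype_mk
    exact continuous_gen hc ht (fun _ => 1) (fun _ => 1) id _ _ _ _ continuous_const
      continuous_const continuous_id⟩
  let H : C(B × unitInterval, B) := ⟨fun x => ⟨gen hc ht x.2.1 0 x.2.2.1 le_rfl zero_le_one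
      (Or.inl rfl) x.1.1, by
      show ((1 - 0 : ℝ) : ℂ) * x.1.1.1.2.1.1 + ((0 : ℝ) : ℂ) * t = t
      have : x.1.1.1.2.1.1 = t := x.1.2
      simp [this]⟩, by
    apply Continuous.subtype_mk
    exact continuous_gen hc ht (fun x : B × unitInterval => (x.2 : ℝ)) (fun _ => 0)
      (fun x => x.1.1) _ _ _ _ (by fun_prop) continuous_const (by fun_prop)⟩
  let K : C(EE × unitInterval, EE) := ⟨fun x => gen hc ht (min (2 * (x.2 : ℝ)) 1)
      (max (2 * (x.2 : ℝ) - 1) 0) (le_min (by have := x.2.2.1; linarith) zero_le_one)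
      (le_max_right _ _) (max_le (by have := x.2.2.2; linarith) zero_le_one) (by
        rcases le_total (2 * (x.2 : ℝ)) 1 with h | h
        · left; exact max_eq_right (by linarith)
        · right; exact min_eq_right h) x.1, by
    exact continuous_gen hc ht (fun x : EE × unitInterval => min (2 * (x.2 : ℝ)) 1)
      (fun x => max (2 * (x.2 : ℝ) - 1) 0) (fun x => x.1) _ _ _ _ (by fun_prop) (by fun_prop)
      (by fun_prop)⟩
  refine HE_of_homotopyEquiv (sub B) G H K ?_ ?_ ?_ ?_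
  · rintro ⟨e, he⟩
    apply Subtype.ext
    apply Subtype.ext
    apply Prod.ext
    · rfl
    · apply Subtype.ext
      apply Prod.ext
      · show ((1 - 0 : ℝ) : ℂ) * e.1.2.1.1 + ((0 : ℝ) : ℂ) * t = e.1.2.1.1
        simp
      · show sc c ((0 : unitInterval) : ℝ) e.1.2.1.2 = e.1.2.1.2
        rw [Set.Icc.coe_zero]
        exact sc_zero c _
  · rintro ⟨e, he⟩
    apply Subtype.ext
    apply Subtype.ext
    apply Prod.ext
    · rfl
    · apply Subtype.ext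
      apply Prod.ext
      · show ((1 - 0 : ℝ) : ℂ) * e.1.2.1.1 + ((0 : ℝ) : ℂ) * t =
          ((1 - 1 : ℝ) : ℂ) * e.1.2.1.1 + ((1 : ℝ) : ℂ) * t
        have : e.1.2.1.1 = t := he
        simp [this]
      · show sc c ((1 : unitInterval) : ℝ) e.1.2.1.2 = sc c 1 e.1.2.1.2
        rfl
  · intro e
    apply Subtype.ext
    apply Prod.ext
    · rfl
    · apply Subtype.ext
      apply Prod.ext
      · show ((1 - max (2 * ((0 : unitInterval) : ℝ) - 1) 0 : ℝ) : ℂ) * e.1.2.1.1 +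
          ((max (2 * ((0 : unitInterval) : ℝ) - 1) 0 : ℝ) : ℂ) * t = e.1.2.1.1
        rw [Set.Icc.coe_zero, max_eq_right (by norm_num)]
        simp
      · show sc c (min (2 * ((0 : unitInterval) : ℝ)) 1) e.1.2.1.2 = e.1.2.1.2
        rw [Set.Icc.coe_zero, min_eq_left (by norm_num), mul_zero]
        exact sc_zero c _
  · intro e
    apply Subtype.ext
    apply Prod.ext
    · rfl
    · apply Subtype.ext
      apply Prod.ext
      · show ((1 - max (2 * ((1 : unitInterval) : ℝ) - 1) 0 : ℝ) : ℂ) * e.1.2.1.1 +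
          ((max (2 * ((1 : unitInterval) : ℝ) - 1) 0 : ℝ) : ℂ) * t =
          ((1 - 1 : ℝ) : ℂ) * e.1.2.1.1 + ((1 : ℝ) : ℂ) * t
        rw [Set.Icc.coe_one, max_eq_left (by norm_num)]
        norm_num
      · show sc c (min (2 * ((1 : unitInterval) : ℝ)) 1) e.1.2.1.2 = sc c 1 e.1.2.1.2
        rw [Set.Icc.coe_one, min_eq_right (by norm_num)]

end Pool.Agent.Q192.HF.KIP
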